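import Pool.Agent.Q99.HX.Fin2
import Pool.Agent.Q99.HU.Asm
import Pool.Agent.Q299.HU.JGP

/-!
# The complexified volume conjecture for highly twisted links on planar shadows with dominant
geometric angles
-/

set_option autoImplicit false

namespace Pool.Agent.Q99.HX

open Finset Filter Topology MeasureTheory
open Pool.Agent.Q99.HT
open Pool.Agent.Q99.HU
open Pool.Agent.Q99.FAL (S_T1 Pc Val Pri fV n1 n2)

theorem phU (D : List Pc) (h1 : Val D 1) (h2 : Pri D 1) (h3 : D ≠ [])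
    (a : Fin D.length → Fin 6 → ℝ) (ha : Mx D a) (hq : Dm D a) :
    ∃ ρ0 : ℝ, 0 < ρ0 ∧ ∀ ρ : ℝ, 0 < ρ → ρ ≤ ρ0 → ∃ W0 C : ℝ, 1 ≤ W0 ∧
    ∀ (f : Fin D.length → Bool × ℕ) (Wm : ℝ), W0 ≤ Wm → (∀ k, Wm ≤ (f k).2) →
    ∃ x : Fin D.length → Fin 6 → ℂ, CrI D (wf f) x ∧ (∀ s i, ‖x s i - a s i‖ < ρ) ∧
      (∀ x', CrI D (wf f) x' → (∀ s i, ‖x' s i - a s i‖ < ρ) → x' = x) ∧
      (∀ s, 0 < (n1 (x s) - n2 (x s)).im) ∧ VI x = 2 * Real.pi * (PI (wf f) x).re ∧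
      |VI x - 2 * Real.pi * fV a| ≤ C / Wm ^ 2 ∧
      ∃ z : ℂ, z ≠ 0 ∧ Tendsto (fun N : ℕ => kas N D f /
        (N * √N * Complex.exp (N * (PI (wf f) x - Complex.I * Real.pi * tot f / 4)))) atTop
        (𝓝 z) := by
  obtain ⟨ρ0, hρ0, H⟩ := allU D h1 h2 h3 a ha hq
  refine ⟨ρ0, hρ0, fun ρ hρ hρ' => ?_⟩
  obtain ⟨W0, C, hW0, G⟩ := H ρ hρ hρ'
  refine ⟨W0, C, hW0, fun f Wm hWm hf => ?_⟩
  obtain ⟨x, g1, g2, g3, g4, g5, g6, z, hz, g7⟩ := G (wf f) Wm hWm fun k => by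
    rw [Pool.Agent.Q99.HU.wf_abs]
    exact hf k
  exact ⟨x, g1, g2, g3, g4, g5, g6, ph_lim Pool.Agent.Q299.HU.task_JGP D h1 f _ z hz g7⟩

end Pool.Agent.Q99.HX
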