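import Pool.Agent.Q99.HX.AsmP
import Pool.Agent.Q176.HX.ASX
import Pool.Agent.Q176.HX.LPX
import Pool.Agent.Q162.HX.FLAP
import Pool.Agent.Q162.HX.GX
import Pool.Agent.Q202.HX2.PX
import Pool.Agent.Q202.HX2.UA

/-!
# Full asymptotic expansions for highly twisted links on planar shadows with dominant geometric
angles
-/

set_option autoImplicit false

namespace Pool.Agent.Q99.HX

open Finset Filter Topology MeasureTheory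
open Pool.Agent.Q99.HT
open Pool.Agent.Q99.HU
open Pool.Agent.Q99.FAL (S_T1 Pc Val Pri fV n1 n2)

theorem t_AX : AXc :=
  Pool.Agent.Q176.HX.task_ASX t_LC t_GAM Pool.Agent.Q176.HT.task_BMO
    (t_Blk Pool.Agent.Q24.HT.task_LTd Pool.Agent.Q24.HT.task_TBI) t_LMO
    Pool.Agent.Q176.HT.task_ZZ Pool.Agent.Q210.HU.task_NW0b Pool.Agent.Q237.HT.task_GPX
    Pool.Agent.Q237.HT.task_MPX t_BNb Pool.Agent.Q210.HU.task_NWb Q299.task_SDN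
    Pool.Agent.Q239.KN.task_LAP _root_.Q299.KN.Gim.task_GIM Q239.task_MXN
    Q299.task_BXN Q239.task_LPN Pool.Agent.Q24.HT.task_LTd
    Pool.Agent.Q162.HX.task_FLAP Pool.Agent.Q162.HX.task_GX Pool.Agent.Q202.HX2.task_UA
    Pool.Agent.Q202.HX2.task_PX Pool.Agent.Q176.HX.task_LPX

/-- **Full asymptotic expansion.** -/
theorem exU (D : List Pc) (h1 : Val D 1) (h2 : Pri D 1) (h3 : D ≠ [])
    (a : Fin D.length → Fin 6 → ℝ) (ha : Mx D a) (hq : Dm D a) :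
    ∃ ρ0 : ℝ, 0 < ρ0 ∧ ∀ ρ : ℝ, 0 < ρ → ρ ≤ ρ0 → ∃ W0 C : ℝ, 1 ≤ W0 ∧
    ∀ (f : Fin D.length → Bool × ℕ) (Wm : ℝ), W0 ≤ Wm → (∀ k, Wm ≤ (f k).2) →
    ∃ x : Fin D.length → Fin 6 → ℂ, CrI D (wf f) x ∧ (∀ s i, ‖x s i - a s i‖ < ρ) ∧
      (∀ x', CrI D (wf f) x' → (∀ s i, ‖x' s i - a s i‖ < ρ) → x' = x) ∧
      (∀ s, 0 < (n1 (x s) - n2 (x s)).im) ∧ VI x = 2 * Real.pi * (PI (wf f) x).re ∧
      |VI x - 2 * Real.pi * fV a| ≤ C / Wm ^ 2 ∧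
      ∃ y : ℕ → ℂ, y 0 ≠ 0 ∧ Xp (fun N : ℕ => kas N D f /
        (N * √N * Complex.exp (N * (PI (wf f) x - Complex.I * Real.pi * tot f / 4)))) y := by
  obtain ⟨ρ0, hρ0, H⟩ := fin_hx t_AX Pool.Agent.Q206.HT.task_NE Pool.Agent.Q239.HU.task_NOb
    Pool.Agent.Q239.HU.task_NDM Pool.Agent.Q151.HU.task_FAR (t_FS Pool.Agent.Q79.HU.task_TWS)
    (Pool.Agent.Q79.HU.task_BBn Pool.Agent.Q208.HT.task_EV t_PF t_WR
      (t_SB Pool.Agent.Q79.HU.task_TWS) t_TW)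
    Pool.Agent.Q261.HT.task_NR
    (Pool.Agent.Q261.HT.task_NZ t_PF t_WR Pool.Agent.Q208.KN.task_SY)
    (Q166.task_NT t_LC) Q166.task_NDi
    (Pool.Agent.Q206.HT.task_VF t_LC Pool.Agent.Q239.KN.task_BW) D h1 h2 h3 a ha hq
  refine ⟨ρ0, hρ0, fun ρ hρ hρ' => ?_⟩
  obtain ⟨W0, C, hW0, G⟩ := H ρ hρ hρ'
  refine ⟨W0, C, hW0, fun f Wm hWm hf => ?_⟩
  obtain ⟨x, g1, g2, g3, g4, g5, g6, y, hy, g7⟩ := G (wf f) Wm hWm fun k => by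
    rw [Pool.Agent.Q99.HU.wf_abs]
    exact hf k
  exact ⟨x, g1, g2, g3, g4, g5, g6, ph_xp Pool.Agent.Q299.HU.task_JGP D h1 f _ y hy g7⟩

end Pool.Agent.Q99.HX
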