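import Pool.Agent.Q99.HX.Stm
import Pool.Agent.Q99.HU.Fin

/-!
# Full asymptotic expansions for highly twisted links on planar shadows: the final step
-/

set_option autoImplicit false

namespace Pool.Agent.Q99.HX

open Finset Filter Topology MeasureTheory
open Pool.Agent.W715.VC (rt)
open Pool.Agent.W709.QAT (Piece run)
open Pool.Agent.Q191.LB (sg)
open Pool.Agent.Q99.FAL (Pc Ty Val Pri Pos AS Sol Out c6 fV n1 n2 cor dn)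
open Pool.Agent.Q99.HT
open Pool.Agent.Q99.HU

theorem Xp.congr' {a b y : ℕ → ℂ} (h : Xp a y) (e : ∀ᶠ N : ℕ in atTop, a N = b N) : Xp b y := by
  intro K
  obtain ⟨C, hC⟩ := h K
  refine ⟨C, ?_⟩
  filter_upwards [hC, e] with N h1 h2
  rw [← h2]
  exact h1

/-- **the state sum of a highly twisted link on a planar shadow, to all orders** -/
theorem fin_hx (hA : AXc) (hE : S_NE) (hO : S_NOb) (hM : S_NDM) (hF : S_FAR) (hFS : FSc)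
    (hB : ∀ α : Fin 6 → ℝ, Fr α → α 1 ≤ α 2 → α 4 ≤ α 5 → NdP α →
      ∃ κ C0 ρ : ℝ, 0 < κ ∧ 0 < ρ ∧ Ltn α κ C0 ρ)
    (hR : S_NR) (hZ : NZc) (hT : NTcb)
    (hD : S_NDib) (hV : VFc) (D : List Pc) (h1 : Val D 1) (h2 : Pri D 1) (h3 : D ≠ [])
    (a : Fin D.length → Fin 6 → ℝ) (ha : Mx D a) (hq : Dm D a) :
    ∃ ρ0 : ℝ, 0 < ρ0 ∧ ∀ ρ : ℝ, 0 < ρ → ρ ≤ ρ0 → ∃ W0 C : ℝ, 1 ≤ W0 ∧
    ∀ (w : Fin D.length → ℤ) (Wm : ℝ), W0 ≤ Wm → (∀ k, Wm ≤ |(w k : ℝ)|) →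
    ∃ x : Fin D.length → Fin 6 → ℂ, CrI D w x ∧ (∀ s i, ‖x s i - a s i‖ < ρ) ∧
      (∀ x', CrI D w x' → (∀ s i, ‖x' s i - a s i‖ < ρ) → x' = x) ∧
      (∀ s, 0 < (n1 (x s) - n2 (x s)).im) ∧ VI x = 2 * Real.pi * (PI w x).re ∧
      |VI x - 2 * Real.pi * fV a| ≤ C / Wm ^ 2 ∧
      ∃ y : ℕ → ℂ, y 0 ≠ 0 ∧ Xp (fun N : ℕ => (N : ℂ) ^ D.length * ZD N D w /
        (N * (√N : ℝ) * ((-1) ^ (D.length * (N - 1)) * Complex.exp (N * PI w x)))) y := by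
  have hpi := Real.pi_pos
  obtain ⟨d, β, Y, hY⟩ := hE D h1 h2 h3 a ha
  obtain ⟨hOk, hab, hv⟩ := hO D h1 h2 h3 a ha d β Y hY
  have hnd := hM D h1 h2 h3 a ha hq d β Y hY
  have hfar := hF hFS D h1 h2 h3 a ha hq d β Y hY hOk hv
  obtain ⟨ρa, hρa, hAs⟩ := hA _ _ Y hOk hfar
    (fun s => hB _ (hOk.fr s) (hab s).1 (hab s).2 (hnd s))
  obtain ⟨Cd, hCd, hDi⟩ := hD D h1 h2 h3 a ha d β Y hY hOk
  obtain ⟨ρv, hρv, hVf⟩ := hV D h1 h2 h3 a ha.1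
  obtain ⟨hT1, hT2, hT3, hT4⟩ := hT D h1 h2 h3 a ha d β Y hY hOk
  have hCd0 : 0 < Cd := by linarith
  refine ⟨min (ρa / Cd) ρv, lt_min (by positivity) hρv, fun ρ hρ hρ' => ?_⟩
  have hρ1 : Cd * ρ ≤ ρa := by
    have := le_trans hρ' (min_le_left _ _)
    rw [le_div_iff₀ hCd0] at this
    linarith
  have hρ2 : ρ ≤ ρv := le_trans hρ' (min_le_right _ _)
  have hρ3 : ρ / Cd ≤ ρa := by
    refine le_trans ?_ hρ1
    rw [div_le_iff₀ hCd0]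
    nlinarith [mul_pos hCd0 hρ]
  obtain ⟨W1, C1, hW1, hB1⟩ := hAs (ρ / Cd) (by positivity) hρ3
  obtain ⟨W2, C2, hW2, hB2⟩ := hAs (Cd * ρ) (by positivity) hρ1
  refine ⟨max W1 W2, 2 * Real.pi * C1, le_trans hW1 (le_max_left _ _), fun w Wm hWm hf => ?_⟩
  obtain ⟨T, J, ζ, hc, hn, him, hval, -, z, hz, hlim⟩ :=
    hB1 w Wm (le_trans (le_max_left _ _) hWm) hf
  obtain ⟨T2, J2, ζ2, hc2, hn2, -, -, hu2, -⟩ :=
    hB2 w Wm (le_trans (le_max_right _ _) hWm) hf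
  have hle : ρ / Cd ≤ Cd * ρ := by
    rw [div_le_iff₀ hCd0]
    nlinarith [mul_pos hCd0 hρ, mul_pos (mul_pos hCd0 hρ) hCd0]
  have hmono : ∀ {T' : Fin d → ℂ} {J' ζ' : Fin D.length → ℂ}, Y.Nr (ρ / Cd) T' J' ζ' →
      Y.Nr (Cd * ρ) T' J' ζ' := fun h =>
    ⟨fun j => lt_of_lt_of_le (h.1 j) hle, fun s => lt_of_lt_of_le (h.2.1 s) hle,
      fun s => lt_of_lt_of_le (h.2.2 s) hle⟩
  have hun : ∀ (T' : Fin d → ℂ) (J' ζ' : Fin D.length → ℂ), Y.Cr w T' J' ζ' →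
      Y.Nr (Cd * ρ) T' J' ζ' → T' = T ∧ J' = J ∧ ζ' = ζ := by
    intro T' J' ζ' h4 h5
    obtain ⟨e1, e2, e3⟩ := hu2 T' J' ζ' h4 h5
    obtain ⟨e4, e5, e6⟩ := hu2 T J ζ hc (hmono hn)
    exact ⟨e1.trans e4.symm, e2.trans e5.symm, e3.trans e6.symm⟩
  set x : Fin D.length → Fin 6 → ℂ := fun s => sx (β s) (1 / 2) (Y.v T J s) (ζ s) with hx
  have hxc : CrI D w x := by
    refine ⟨(hT1 x).2 ⟨T, J, ζ, hc.aj, rfl⟩, fun δ hδ => ?_⟩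
    obtain ⟨T', J', ζ', hJ', rfl⟩ := (hT2 δ).1 hδ
    rw [hx, hT3 _ _ _ _ _ _ _ hc.aj hJ']
    exact hc.eq _ _ _ hJ'
  have hxn : ∀ s i, ‖x s i - a s i‖ < ρ := by
    intro s i
    have := (hDi (ρ / Cd) T J ζ (by positivity)).1 hn s i
    rwa [mul_div_cancel₀ _ hCd0.ne'] at this
  have hPI : PI w x = Y.Ph w T J ζ := hT4 _ _ _ _ hc.aj
  have hVx : VI x = 2 * Real.pi * (PI w x).re := hVf w x hxc fun s i => lt_of_lt_of_le (hxn s i) hρ2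
  refine ⟨x, hxc, hxn, ?_, ?_, hVx, ?_, z, hz, ?_⟩
  · intro x' hx' hn'
    obtain ⟨T', J', ζ', hJ', rfl⟩ := (hT1 x').1 hx'.1
    have h5 := (hDi ρ T' J' ζ' hρ).2 hn'
    have h4 : Y.Cr w T' J' ζ' := by
      refine ⟨hJ', fun T'' J'' ζ'' hJ'' => ?_⟩
      rw [← hT3 _ _ _ _ _ _ _ hJ' hJ'']
      exact hx'.2 _ ((hT2 _).2 ⟨T'', J'', ζ'', hJ'', rfl⟩)
    obtain ⟨e1, e2, e3⟩ := hun T' J' ζ' h4 h5
    rw [hx, e1, e2, e3]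
  · intro s
    have e1 := sx_n12 (β s) (1 / 2) (Y.v T J s) (ζ s)
    show 0 < (n1 (sx (β s) (1 / 2) (Y.v T J s) (ζ s)) -
      n2 (sx (β s) (1 / 2) (Y.v T J s) (ζ s))).im
    rw [e1.1, e1.2]
    have e2 : (1 / 2 + ζ s / 2 - (1 / 2 - ζ s / 2) : ℂ) = ζ s := by ring
    rw [e2]
    exact him s
  · rw [hVx, hPI, ← hv, ← mul_sub, abs_mul, abs_of_pos (by positivity : 0 < 2 * Real.pi), mul_div_assoc]
    exact mul_le_mul_of_nonneg_left hval (by positivity)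
  · refine hlim.congr' ?_
    filter_upwards [eventually_ge_atTop 1] with N hN
    have hN0 : 0 < N := hN
    have hN' : (N : ℂ) ≠ 0 := by exact_mod_cast hN0.ne'
    have hs0 : (√(N : ℝ)) ≠ 0 := (Real.sqrt_pos.2 (by exact_mod_cast hN0)).ne'
    have hs : ((√(N : ℝ) : ℝ) : ℂ) ≠ 0 := by exact_mod_cast hs0
    have hss : ((√(N : ℝ) : ℝ) : ℂ) ^ 2 = N := by
      rw [← Complex.ofReal_pow, Real.sq_sqrt (Nat.cast_nonneg N)]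
      simp
    have hcard := hR D h1 h2 h3 a ha d β Y hY
    rw [hPI, hZ D h1 h2 h3 a ha d β Y hY N hN0, Complex.exp_neg]
    have e1 : ((√(N : ℝ) : ℝ) : ℂ) ^ Y.nA / ((√(N : ℝ) : ℝ) : ℂ) ^ Fintype.card Y.Ix =
        (N : ℂ) ^ D.length / (N * (√(N : ℝ) : ℝ)) := by
      rw [div_eq_div_iff (pow_ne_zero _ hs) (mul_ne_zero hN' hs)]
      have e2 : (N : ℂ) * ((√(N : ℝ) : ℝ) : ℂ) = ((√(N : ℝ) : ℝ) : ℂ) ^ 3 := by
        rw [pow_succ, hss]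
      have e3 : (N : ℂ) ^ D.length = ((√(N : ℝ) : ℝ) : ℂ) ^ (2 * D.length) := by rw [pow_mul, hss]
      rw [e2, e3, ← pow_add, ← pow_add]
      congr 1
      omega
    rw [e1]
    have e4 : ((-1 : ℂ) ^ (D.length * (N - 1))) * ((-1 : ℂ) ^ (D.length * (N - 1))) = 1 := by
      rw [← mul_pow]
      simp
    have e5 : ((-1 : ℂ) ^ (D.length * (N - 1))) ≠ 0 := pow_ne_zero _ (by simp)
    have e6 : ((-1 : ℂ) ^ (D.length * (N - 1))) = ((-1 : ℂ) ^ (D.length * (N - 1)))⁻¹ :=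
      eq_inv_of_mul_eq_one_left e4
    have e7 := Complex.exp_ne_zero (N * Y.Ph w T J ζ)
    calc (N : ℂ) ^ D.length / (N * (√(N : ℝ) : ℝ)) * (-1) ^ (D.length * (N - 1)) *
          (Complex.exp (N * Y.Ph w T J ζ))⁻¹ * Y.Z N w =
        (N : ℂ) ^ D.length / (N * (√(N : ℝ) : ℝ)) * ((-1) ^ (D.length * (N - 1)))⁻¹ *
          (Complex.exp (N * Y.Ph w T J ζ))⁻¹ * Y.Z N w := by rw [← e6]
      _ = _ := by
          field_simp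

end Pool.Agent.Q99.HX
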