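import Pool.Agent.Q99.HX.Fin
import Pool.Agent.Q99.HU.Stm2
import Pool.Agent.Q99.FP2.Al
import Pool.Agent.W303.AX.UX1
import Pool.Agent.W67.AX.UX2

/-!
# Full asymptotic expansions for highly twisted links on planar shadows: the phase
-/

set_option autoImplicit false

namespace Pool.Agent.Q99.HX

open Finset Filter Topology MeasureTheory
open Pool.Agent.W715.VC (rt)
open Pool.Agent.W709.QAT (Piece run)
open Pool.Agent.W719.AX (UX)
open Pool.Agent.Q191.LB (sg)
open Pool.Agent.Q191.TW (cs cs_add cs_zero)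
open Pool.Agent.Q99.FW (Kg)
open Pool.Agent.Q99.FP2 (Phs phs_Kg)
open Pool.Agent.Q99.FAL (Pc Ty Val Pri Pos AS Sol Out c6 fV n1 n2 cor dn)
open Pool.Agent.Q99.HT
open Pool.Agent.Q99.HU

lemma Xp.ux {a y : ℕ → ℂ} : Xp a y ↔ UX (fun N (_ : Unit) => a N) (fun k _ => y k) Set.univ := by
  constructor
  · intro h K
    obtain ⟨C, hC⟩ := h K
    exact ⟨C, hC.mono fun N hN _ _ => hN⟩
  · intro h K
    obtain ⟨C, hC⟩ := h K
    exact ⟨C, hC.mono fun N hN => hN () (Set.mem_univ _)⟩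

lemma Xp.mul {a b y z : ℕ → ℂ} (ha : Xp a y) (hb : Xp b z) :
    ∃ u : ℕ → ℂ, u 0 = y 0 * z 0 ∧ Xp (fun N => a N * b N) u := by
  have h := Pool.Agent.W303.AX.uxmul Unit _ _ _ _ _ (Xp.ux.1 ha) (Xp.ux.1 hb)
  refine ⟨fun k => ∑ i ∈ range (k + 1), y i * z (k - i), by simp, Xp.ux.2 h⟩

lemma Xp.const (c : ℂ) : Xp (fun _ => c) (fun k => if k = 0 then c else 0) := by
  intro K
  refine ⟨‖c‖, Eventually.of_forall fun N => ?_⟩
  rcases Nat.eq_zero_or_pos K with rfl | hK
  · simp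
  · have e : ∑ k ∈ range K, (if k = 0 then c else 0) / (N : ℂ) ^ k = c := by
      rw [sum_eq_single 0]
      · simp
      · intro b _ hb
        simp [hb]
      · intro h
        exact absurd (mem_range.2 hK) h
    rw [e, sub_self, norm_zero]
    positivity

lemma Xp.inv (c : ℂ) : ∃ u : ℕ → ℂ, u 0 = 1 ∧ Xp (fun N => Complex.exp (c / N)) u := by
  have h : UX (fun N (_ : Unit) => c / (N : ℂ)) (fun k _ => if k = 1 then c else 0) Set.univ := by
    refine (Xp.ux (a := fun N => c / (N : ℂ)) (y := fun k => if k = 1 then c else 0)).1 fun K => ?_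
    refine ⟨‖c‖ , ?_⟩
    filter_upwards [eventually_ge_atTop 1] with N hN
    have hN0 : (1 : ℝ) ≤ N := by exact_mod_cast hN
    rcases Nat.lt_or_ge K 2 with hK | hK
    · have e : ∑ k ∈ range K, (if k = 1 then c else 0) / (N : ℂ) ^ k = 0 := by
        refine sum_eq_zero fun k hk => ?_
        rw [mem_range] at hk
        rw [if_neg (by omega), zero_div]
      rw [e, sub_zero, norm_div, Complex.norm_natCast]
      refine div_le_div_of_nonneg_left (norm_nonneg _) (by positivity) ?_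
      calc (N : ℝ) ^ K ≤ (N : ℝ) ^ 1 := pow_le_pow_right₀ hN0 (by omega)
        _ = N := pow_one _
    · have e : ∑ k ∈ range K, (if k = 1 then c else 0) / (N : ℂ) ^ k = c / N := by
        rw [sum_eq_single 1]
        · simp
        · intro b _ hb
          simp [hb]
        · intro h
          exact absurd (mem_range.2 hK) h
      rw [e, sub_self, norm_zero]
      positivity
  obtain ⟨B, hB, h0⟩ := Pool.Agent.W67.AX.uxexp Pool.Agent.W303.AX.uxbd
    Pool.Agent.W303.AX.uxmul Unit _ _ _ h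
  refine ⟨fun k => B k (), ?_, Xp.ux.2 hB⟩
  show B 0 () = 1
  rw [h0]
  simp

lemma phs_prod {ι : Type} (s : Finset ι) (f : ι → ℕ → ℂ) (a : ι → ℝ) (h : ∀ i ∈ s, Phs (f i) (a i)) :
    Phs (fun N => ∏ i ∈ s, f i N) (∑ i ∈ s, a i) := by
  classical
  induction s using Finset.induction_on with
  | empty => simpa using Phs.one
  | insert j s hj ih =>
    simp only [prod_insert hj, sum_insert hj]
    exact (h j (mem_insert_self _ _)).mul (ih fun i hi => h i (mem_insert_of_mem hi))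

/-- the total number of crossings with signs -/
def tot {n : ℕ} (f : Fin n → Bool × ℕ) : ℤ := ∑ k, wf f k

lemma phs_all {n : ℕ} (f : Fin n → Bool × ℕ) :
    Phs (fun N => ∏ k, Kg N (sg (f k).1) ^ (f k).2) (-(tot f : ℝ) / 4) := by
  have h := phs_prod univ (fun k N => Kg N (sg (f k).1) ^ (f k).2) _
    (fun k _ => (phs_Kg (f k).1).pow (f k).2)
  have e : ∑ k, (((f k).2 : ℕ) : ℝ) * (-(sg (f k).1 : ℝ) / 4) = -(tot f : ℝ) / 4 := by
    unfold tot wf
    push_cast
    rw [← sum_neg_distrib, sum_div]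
    refine sum_congr rfl fun k _ => ?_
    ring
  rw [← e]
  exact h

/-- **the Kashaev invariant with its phase** -/
theorem fin_ph (hJ : S_JGP) (D : List Pc) (h1 : Val D 1) (f : Fin D.length → Bool × ℕ) (P : ℂ) :
    ∃ β γ : ℝ, ∀ N : ℕ, 0 < N → kas N D f /
      (N * √N * Complex.exp (N * (P - Complex.I * Real.pi * tot f / 4))) =
      Complex.exp (Complex.I * Real.pi * β) * Complex.exp (Complex.I * Real.pi * γ / N) *
        (1 / Real.pi) ^ D.length * ((N : ℂ) ^ D.length * ZD N D (wf f) /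
      (N * (√N : ℝ) * ((-1) ^ (D.length * (N - 1)) * Complex.exp (N * P)))) := by
  obtain ⟨β, γ, hJ⟩ := hJ D h1
  obtain ⟨β', γ', hK⟩ := phs_all f
  refine ⟨β + β', γ + γ', fun N hN => ?_⟩
  have hN' : (N : ℂ) ≠ 0 := by exact_mod_cast hN.ne'
  have hpi : (Real.pi : ℂ) ≠ 0 := by exact_mod_cast Real.pi_pos.ne'
  have e1 : kas N D f = cs N (β * N + γ) * ((-1) ^ (N - 1)) ^ D.length *
      (∏ k, Kg N (sg (f k).1) ^ (f k).2) * (N / Real.pi) ^ D.length * ZD N D (wf f) := by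
    unfold kas
    rw [dif_pos hN]
    exact hJ N hN f
  have hK' : ∏ k, Kg N (sg (f k).1) ^ (f k).2 =
      cs N (-(tot f : ℝ) / 4 * (N : ℝ) ^ 2 + β' * N + γ') := hK N hN
  rw [e1, hK']
  have e2 : Complex.exp (N * (P - Complex.I * Real.pi * tot f / 4)) =
      Complex.exp (N * P) * Complex.exp (-(N * (Complex.I * Real.pi * tot f / 4))) := by
    rw [← Complex.exp_add]
    congr 1
    ring
  have e3 : cs N (β * N + γ) * cs N (-(tot f : ℝ) / 4 * (N : ℝ) ^ 2 + β' * N + γ') =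
      Complex.exp (Complex.I * Real.pi * (β + β')) * Complex.exp (Complex.I * Real.pi * (γ + γ') / N) *
        Complex.exp (-(N * (Complex.I * Real.pi * tot f / 4))) := by
    unfold cs
    rw [← Complex.exp_add, ← Complex.exp_add, ← Complex.exp_add]
    congr 1
    push_cast
    field_simp
    ring
  have e4 : ((-1 : ℂ) ^ (N - 1)) ^ D.length = (-1 : ℂ) ^ (D.length * (N - 1)) := by
    rw [← pow_mul, mul_comm]
  have e5 : ((-1 : ℂ) ^ (D.length * (N - 1))) ≠ 0 := pow_ne_zero _ (by simp)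
  have e6 : ((-1 : ℂ) ^ (D.length * (N - 1))) * ((-1 : ℂ) ^ (D.length * (N - 1))) = 1 := by
    rw [← mul_pow]
    simp
  have e7 := Complex.exp_ne_zero (N * P)
  have e8 := Complex.exp_ne_zero (-(N * (Complex.I * Real.pi * tot f / 4)))
  have hs0 : (√(N : ℝ)) ≠ 0 := (Real.sqrt_pos.2 (by exact_mod_cast hN)).ne'
  have hs : ((√(N : ℝ) : ℝ) : ℂ) ≠ 0 := by exact_mod_cast hs0
  rw [e2, e4]
  push_cast
  have e9 : cs N (β * N + γ) * (-1) ^ (D.length * (N - 1)) *
      cs N (-(tot f : ℝ) / 4 * (N : ℝ) ^ 2 + β' * N + γ') * ((N : ℂ) / Real.pi) ^ D.length *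
      ZD N D (wf f) = (cs N (β * N + γ) * cs N (-(tot f : ℝ) / 4 * (N : ℝ) ^ 2 + β' * N + γ')) *
      ((-1) ^ (D.length * (N - 1)) * ((N : ℂ) / Real.pi) ^ D.length * ZD N D (wf f)) := by ring
  rw [e9, e3]
  generalize ((-1 : ℂ) ^ (D.length * (N - 1))) = s at *
  generalize Complex.exp (Complex.I * Real.pi * (β + β')) = A
  generalize Complex.exp (Complex.I * Real.pi * (γ + γ') / N) = B
  generalize Complex.exp (-(N * (Complex.I * Real.pi * tot f / 4))) = F at *
  generalize Complex.exp (N * P) = E at *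
  rw [div_pow, div_pow, one_pow]
  have hp : (Real.pi : ℂ) ^ D.length ≠ 0 := pow_ne_zero _ hpi
  generalize (Real.pi : ℂ) ^ D.length = π' at *
  generalize (N : ℂ) ^ D.length = N' at *
  have e11 : s = 1 / s := by
    rw [eq_div_iff e5]
    exact e6
  have e12 : A * B * F * (s * (N' / π') * ZD N D (wf f)) / (N * (√(N : ℝ) : ℝ) * (E * F)) =
      A * B * F * (1 / s * (N' / π') * ZD N D (wf f)) / (N * (√(N : ℝ) : ℝ) * (E * F)) := by
    rw [← e11]
  rw [e12]
  field_simp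

lemma div_tendsto (c : ℂ) : Tendsto (fun N : ℕ => Complex.exp (c / N)) atTop (𝓝 1) := by
  have h1 : Tendsto (fun N : ℕ => c / (N : ℂ)) atTop (𝓝 0) := tendsto_const_div_atTop_nhds_zero_nat c
  have h2 := (Complex.continuous_exp.tendsto 0).comp h1
  rw [Complex.exp_zero] at h2
  exact h2

theorem ph_lim (hJ : S_JGP) (D : List Pc) (h1 : Val D 1) (f : Fin D.length → Bool × ℕ) (P z : ℂ)
    (hz : z ≠ 0) (hlim : Tendsto (fun N : ℕ => (N : ℂ) ^ D.length * ZD N D (wf f) /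
      (N * (√N : ℝ) * ((-1) ^ (D.length * (N - 1)) * Complex.exp (N * P)))) atTop (𝓝 z)) :
    ∃ c : ℂ, c ≠ 0 ∧ Tendsto (fun N : ℕ => kas N D f /
      (N * √N * Complex.exp (N * (P - Complex.I * Real.pi * tot f / 4)))) atTop (𝓝 c) := by
  obtain ⟨β, γ, h⟩ := fin_ph hJ D h1 f P
  have hpi : (Real.pi : ℂ) ≠ 0 := by exact_mod_cast Real.pi_pos.ne'
  have hp : (1 / Real.pi : ℂ) ^ D.length ≠ 0 := pow_ne_zero _ (one_div_ne_zero hpi)
  refine ⟨Complex.exp (Complex.I * Real.pi * β) * 1 * (1 / Real.pi) ^ D.length * z,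
    mul_ne_zero (mul_ne_zero (mul_ne_zero (Complex.exp_ne_zero _) one_ne_zero) hp) hz, ?_⟩
  refine (((div_tendsto (Complex.I * Real.pi * γ)).const_mul
    (Complex.exp (Complex.I * Real.pi * β))).mul_const ((1 / Real.pi : ℂ) ^ D.length)).mul hlim
    |>.congr' ?_
  filter_upwards [eventually_ge_atTop 1] with N hN
  exact (h N hN).symm

theorem ph_xp (hJ : S_JGP) (D : List Pc) (h1 : Val D 1) (f : Fin D.length → Bool × ℕ) (P : ℂ)
    (y : ℕ → ℂ) (hy : y 0 ≠ 0) (hX : Xp (fun N : ℕ => (N : ℂ) ^ D.length * ZD N D (wf f) /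
      (N * (√N : ℝ) * ((-1) ^ (D.length * (N - 1)) * Complex.exp (N * P)))) y) :
    ∃ u : ℕ → ℂ, u 0 ≠ 0 ∧ Xp (fun N : ℕ => kas N D f /
      (N * √N * Complex.exp (N * (P - Complex.I * Real.pi * tot f / 4)))) u := by
  obtain ⟨β, γ, h⟩ := fin_ph hJ D h1 f P
  have hpi : (Real.pi : ℂ) ≠ 0 := by exact_mod_cast Real.pi_pos.ne'
  have hp : (1 / Real.pi : ℂ) ^ D.length ≠ 0 := pow_ne_zero _ (one_div_ne_zero hpi)
  obtain ⟨u1, e1, g1⟩ := Xp.inv (Complex.I * Real.pi * γ)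
  obtain ⟨u2, e2, g2⟩ := (Xp.const (Complex.exp (Complex.I * Real.pi * β))).mul g1
  obtain ⟨u3, e3, g3⟩ := g2.mul (Xp.const ((1 / Real.pi : ℂ) ^ D.length))
  obtain ⟨u4, e4, g4⟩ := g3.mul hX
  refine ⟨u4, ?_, g4.congr' ?_⟩
  · rw [e4, e3, e2, e1]
    simp only [if_true]
    exact mul_ne_zero (mul_ne_zero (mul_ne_zero (Complex.exp_ne_zero _) one_ne_zero) hp) hy
  · filter_upwards [eventually_ge_atTop 1] with N hN
    exact (h N hN).symm

end Pool.Agent.Q99.HX
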