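import Pool.Agent.Q99.HX.Fin2

/-!
# Consequences of a full asymptotic expansion: framings, logarithms, ratios
-/

set_option autoImplicit false

namespace Pool.Agent.Q99.HX

open Finset Filter Topology

/-- changes of the framing and signs -/
theorem xp_framed (a : ℕ → ℂ) (v : ℂ) (y : ℕ → ℂ) (hy : y 0 ≠ 0)
    (h : Xp (fun N : ℕ => a N / (N * √N * Complex.exp (N * v))) y) (e f : ℤ) :
    ∃ u : ℕ → ℂ, u 0 ≠ 0 ∧ Xp (fun N : ℕ =>
      ((-1) ^ (f * ((N : ℤ) - 1)) * Complex.exp (Real.pi * Complex.I / N) ^ (e * ((N : ℤ) ^ 2 - 1)) *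
        a N) / (N * √N * Complex.exp (N * (v + Real.pi * Complex.I * (e + f))))) u := by
  obtain ⟨u1, e1, g1⟩ := Xp.inv (-(Real.pi * Complex.I * e))
  obtain ⟨u2, e2, g2⟩ := (Xp.const (Complex.exp (-(Real.pi * Complex.I * f)))).mul g1
  obtain ⟨u3, e3, g3⟩ := g2.mul h
  refine ⟨u3, ?_, g3.congr' ?_⟩
  · rw [e3, e2, e1]
    simp only [if_true, mul_one]
    exact mul_ne_zero (Complex.exp_ne_zero _) hy
  · filter_upwards [eventually_ge_atTop 1] with N hN
    have hN0 : (N : ℂ) ≠ 0 := by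
      have : N ≠ 0 := by omega
      exact_mod_cast this
    have h1 : (-1 : ℂ) ^ (f * ((N : ℤ) - 1)) =
        Complex.exp (Real.pi * Complex.I * (f * (N - 1))) := by
      rw [← Complex.exp_pi_mul_I, ← Complex.exp_int_mul]
      congr 1
      push_cast
      ring
    have h2 : Complex.exp (Real.pi * Complex.I / N) ^ (e * ((N : ℤ) ^ 2 - 1)) =
        Complex.exp (Real.pi * Complex.I * e * (N - 1 / N)) := by
      rw [← Complex.exp_int_mul]
      congr 1
      push_cast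
      field_simp
    have h3 : Complex.exp (N * (v + Real.pi * Complex.I * (e + f))) =
        Complex.exp (N * v) * Complex.exp (N * (Real.pi * Complex.I * (e + f))) := by
      rw [← Complex.exp_add]
      congr 1
      ring
    have h4 : Complex.exp (Real.pi * Complex.I * (f * (N - 1))) *
        Complex.exp (Real.pi * Complex.I * e * (N - 1 / N)) =
        Complex.exp (-(Real.pi * Complex.I * f)) * Complex.exp (-(Real.pi * Complex.I * e) / N) *
          Complex.exp (N * (Real.pi * Complex.I * (e + f))) := by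
      rw [← Complex.exp_add, ← Complex.exp_add, ← Complex.exp_add]
      congr 1
      field_simp
      ring
    rw [h1, h2, h3, h4]
    have h5 := Complex.exp_ne_zero (N * (Real.pi * Complex.I * (e + f)))
    generalize Complex.exp (N * (Real.pi * Complex.I * (e + f))) = E at *
    generalize Complex.exp (N * v) = F
    generalize Complex.exp (-(Real.pi * Complex.I * f)) = G
    generalize Complex.exp (-(Real.pi * Complex.I * e) / N) = H
    rw [show G * H * E * a N = G * H * a N * E by ring,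
      show (N : ℂ) * (√(N : ℝ) : ℝ) * (F * E) = N * (√(N : ℝ) : ℝ) * F * E by ring,
      mul_div_mul_right _ _ h5, mul_div_assoc]

/-- first order -/
lemma xp_one {b y : ℕ → ℂ} (h : Xp b y) : ∃ C : ℝ, 0 ≤ C ∧ ∀ᶠ N : ℕ in atTop,
    ‖b N - y 0‖ ≤ C / N := by
  obtain ⟨C, hC⟩ := h 1
  refine ⟨|C|, abs_nonneg C, ?_⟩
  filter_upwards [hC, eventually_ge_atTop 1] with N hN h1
  have e : ∑ k ∈ range 1, y k / (N : ℂ) ^ k = y 0 := by simp
  rw [e, pow_one] at hN
  exact hN.trans (div_le_div_of_nonneg_right (le_abs_self C) (Nat.cast_nonneg N))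

lemma xp_two {b y : ℕ → ℂ} (h : Xp b y) : ∃ C : ℝ, 0 ≤ C ∧ ∀ᶠ N : ℕ in atTop,
    ‖b N - (y 0 + y 1 / N)‖ ≤ C / (N : ℝ) ^ 2 := by
  obtain ⟨C, hC⟩ := h 2
  refine ⟨|C|, abs_nonneg C, ?_⟩
  filter_upwards [hC, eventually_ge_atTop 1] with N hN h1
  have e : ∑ k ∈ range 2, y k / (N : ℂ) ^ k = y 0 + y 1 / N := by
    rw [sum_range_succ, sum_range_one]
    simp
  rw [e] at hN
  exact hN.trans (div_le_div_of_nonneg_right (le_abs_self C) (by positivity))

lemma log_one_add_bound {z : ℂ} (hz : ‖z‖ ≤ 1 / 2) : ‖Complex.log (1 + z) - z‖ ≤ ‖z‖ ^ 2 := by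
  have h1 : ‖z‖ < 1 := by linarith
  have h2 := Complex.norm_log_one_add_sub_self_le h1
  refine h2.trans ?_
  have h3 : (1 - ‖z‖)⁻¹ ≤ 2 := by
    rw [inv_le_comm₀ (by linarith) (by norm_num)]
    linarith
  have h4 : 0 ≤ ‖z‖ ^ 2 := by positivity
  calc ‖z‖ ^ 2 * (1 - ‖z‖)⁻¹ / 2 ≤ ‖z‖ ^ 2 * 2 / 2 := by gcongr
    _ = ‖z‖ ^ 2 := by ring

/-- **logarithms** -/
theorem xp_logs (a : ℕ → ℂ) (v : ℂ) (y : ℕ → ℂ) (hy : y 0 ≠ 0)
    (h : Xp (fun N : ℕ => a N / (N * √N * Complex.exp (N * v))) y) :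
    ∃ (l : ℕ → ℂ) (C : ℝ), (∀ᶠ N : ℕ in atTop, Complex.exp (l N) = a N) ∧
      ∀ᶠ N : ℕ in atTop, ‖l N - (N * v + 3 / 2 * Real.log N + Complex.log (y 0) +
        y 1 / y 0 / N)‖ ≤ C / (N : ℝ) ^ 2 := by
  obtain ⟨C, hC0, hC⟩ := xp_two h
  set b : ℕ → ℂ := fun N => a N / (N * √N * Complex.exp (N * v)) with hb
  have hy0 : 0 < ‖y 0‖ := norm_pos_iff.2 hy
  set A : ℝ := (‖y 1‖ + C) / ‖y 0‖ with hA
  have hA0 : 0 ≤ A := by positivity
  have hz : ∀ᶠ N : ℕ in atTop, ‖b N / y 0 - 1 - y 1 / y 0 / N‖ ≤ C / ‖y 0‖ / (N : ℝ) ^ 2 ∧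
      ‖b N / y 0 - 1‖ ≤ A / N := by
    filter_upwards [hC, eventually_ge_atTop 1] with N hN h3
    have hNr : (1 : ℝ) ≤ N := by exact_mod_cast h3
    have hN0 : (N : ℂ) ≠ 0 := by
      have : N ≠ 0 := by omega
      exact_mod_cast this
    have e1 : ‖b N / y 0 - 1 - y 1 / y 0 / N‖ ≤ C / ‖y 0‖ / (N : ℝ) ^ 2 := by
      have e2 : b N / y 0 - 1 - y 1 / y 0 / N = (b N - (y 0 + y 1 / N)) / y 0 := by
        field_simp
        ring
      rw [e2, norm_div, div_div, mul_comm ‖y 0‖, ← div_div]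
      exact div_le_div_of_nonneg_right hN hy0.le
    refine ⟨e1, ?_⟩
    have e3 := norm_add_le (b N / y 0 - 1 - y 1 / y 0 / N) (y 1 / y 0 / N)
    rw [sub_add_cancel, norm_div (y 1 / y 0), norm_div (y 1), Complex.norm_natCast] at e3
    have e4 : C / ‖y 0‖ / (N : ℝ) ^ 2 ≤ C / ‖y 0‖ / N := by
      refine div_le_div_of_nonneg_left (by positivity) (by linarith) ?_
      nlinarith
    have e5 : A / N = C / ‖y 0‖ / N + ‖y 1‖ / ‖y 0‖ / N := by
      rw [hA]
      field_simp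
      ring
    rw [e5]
    linarith
  have hlim : Tendsto (fun N : ℕ => A / (N : ℝ)) atTop (𝓝 0) :=
    tendsto_const_div_atTop_nhds_zero_nat A
  have hhalf : ∀ᶠ N : ℕ in atTop, A / (N : ℝ) < 1 / 2 :=
    hlim.eventually (gt_mem_nhds (by norm_num))
  refine ⟨fun N => N * v + 3 / 2 * Real.log N + Complex.log (y 0) +
    Complex.log (1 + (b N / y 0 - 1)), A ^ 2 + C / ‖y 0‖, ?_, ?_⟩
  · filter_upwards [hz, hhalf, eventually_ge_atTop 1] with N hN h2 h3
    have hN0 : (N : ℂ) ≠ 0 := by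
      have : N ≠ 0 := by omega
      exact_mod_cast this
    have hNr : (0 : ℝ) < N := by exact_mod_cast h3
    have hs : ((√(N : ℝ) : ℝ) : ℂ) ≠ 0 := by exact_mod_cast (Real.sqrt_pos.2 hNr).ne'
    have hbn : b N ≠ 0 := by
      intro h0
      have := hN.2
      rw [h0, zero_div, zero_sub, norm_neg, norm_one] at this
      linarith
    have e1 : (1 : ℂ) + (b N / y 0 - 1) = b N / y 0 := by ring
    rw [e1, Complex.exp_add, Complex.exp_add, Complex.exp_add,
      Complex.exp_log (div_ne_zero hbn hy), Complex.exp_log hy]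
    have e2 : Complex.exp (3 / 2 * Real.log N) = N * (√(N : ℝ) : ℝ) := by
      have e3 : (3 / 2 : ℂ) * (Real.log N : ℝ) = ((Real.log N + Real.log (√(N : ℝ)) : ℝ) : ℂ) := by
        rw [Real.log_sqrt hNr.le]
        push_cast
        ring
      rw [e3, ← Complex.ofReal_exp, Real.exp_add, Real.exp_log hNr,
        Real.exp_log (Real.sqrt_pos.2 hNr)]
      push_cast
      ring
    rw [e2, hb]
    have h6 := Complex.exp_ne_zero (N * v)
    field_simp
  · filter_upwards [hz, hhalf, eventually_ge_atTop 1] with N hN h2 h3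
    have hNr : (0 : ℝ) < N := by exact_mod_cast h3
    obtain ⟨e1, e2⟩ := hN
    have e3 : ‖b N / y 0 - 1‖ ≤ 1 / 2 := e2.trans h2.le
    have e4 := log_one_add_bound e3
    have e5 : ‖b N / y 0 - 1‖ ^ 2 ≤ A ^ 2 / (N : ℝ) ^ 2 := by
      rw [← div_pow]
      exact pow_le_pow_left₀ (norm_nonneg _) e2 2
    have e8 : (N : ℂ) * v + 3 / 2 * Real.log N + Complex.log (y 0) +
        Complex.log (1 + (b N / y 0 - 1)) - (N * v + 3 / 2 * Real.log N + Complex.log (y 0) +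
          y 1 / y 0 / N) =
        (Complex.log (1 + (b N / y 0 - 1)) - (b N / y 0 - 1)) +
          (b N / y 0 - 1 - y 1 / y 0 / N) := by ring
    rw [e8, add_div]
    exact (norm_add_le _ _).trans (add_le_add (e4.trans e5) e1)

/-- **ratios** -/
theorem xp_ratio (a : ℕ → ℂ) (v : ℂ) (y : ℕ → ℂ) (hy : y 0 ≠ 0)
    (h : Xp (fun N : ℕ => a N / (N * √N * Complex.exp (N * v))) y) :
    (∀ᶠ N : ℕ in atTop, a N ≠ 0) ∧ ∃ (C : ℝ) (k : ℕ → ℤ), ∀ᶠ N : ℕ in atTop,
      ‖Real.pi * Complex.log (a (N + 2) / a N) + k N * (Real.pi ^ 2 * Complex.I) -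
        (2 * Real.pi * v + 3 * Real.pi / N)‖ ≤ C / (N : ℝ) ^ 2 := by
  obtain ⟨l, C, h1, h2⟩ := xp_logs a v y hy h
  have hpi := Real.pi_pos
  have h0 : ∀ᶠ N : ℕ in atTop, a N ≠ 0 := by
    filter_upwards [h1] with N hN
    rw [← hN]
    exact Complex.exp_ne_zero _
  refine ⟨h0, ?_⟩
  have h1' : ∀ᶠ N : ℕ in atTop, Complex.exp (l (N + 2)) = a (N + 2) :=
    (tendsto_add_atTop_nat 2).eventually h1
  have h2' : ∀ᶠ N : ℕ in atTop, ‖l (N + 2) - (((N + 2 : ℕ) : ℂ) * v +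
      3 / 2 * Real.log ((N + 2 : ℕ) : ℝ) + Complex.log (y 0) + y 1 / y 0 / ((N + 2 : ℕ) : ℂ))‖ ≤
      C / (((N + 2 : ℕ) : ℝ)) ^ 2 :=
    (tendsto_add_atTop_nat 2).eventually h2
  have hex : ∀ᶠ N : ℕ in atTop, ∃ k : ℤ, Complex.log (a (N + 2) / a N) =
      l (N + 2) - l N + k * (2 * Real.pi * Complex.I) := by
    filter_upwards [h1, h1', h0] with N g1 g2 g3
    have e : Complex.exp (Complex.log (a (N + 2) / a N)) = Complex.exp (l (N + 2) - l N) := by
      rw [Complex.exp_log, Complex.exp_sub, g1, g2]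
      refine div_ne_zero ?_ g3
      rw [← g2]
      exact Complex.exp_ne_zero _
    exact Complex.exp_eq_exp_iff_exists_int.1 e
  obtain ⟨k, hk⟩ := Filter.skolem.1 hex
  refine ⟨Real.pi * (2 * |C| + 2 * ‖y 1 / y 0‖ + 6), fun N => -2 * k N, ?_⟩
  filter_upwards [hk, h2, h2', eventually_ge_atTop 4] with N g1 g2 g3 g4
  have hNr : (4 : ℝ) ≤ N := by exact_mod_cast g4
  have hN0 : (N : ℂ) ≠ 0 := by
    have : N ≠ 0 := by omega
    exact_mod_cast this
  have hN2 : (N : ℂ) + 2 ≠ 0 := by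
    have : N + 2 ≠ 0 := by omega
    exact_mod_cast this
  set r : ℕ → ℂ := fun M => l M - (M * v + 3 / 2 * Real.log M + Complex.log (y 0) +
    y 1 / y 0 / M) with hr
  have e1 : ‖r N‖ ≤ |C| / (N : ℝ) ^ 2 :=
    g2.trans (div_le_div_of_nonneg_right (le_abs_self C) (by positivity))
  have e2 : ‖r (N + 2)‖ ≤ |C| / (N : ℝ) ^ 2 := by
    refine g3.trans ((div_le_div_of_nonneg_right (le_abs_self C) (by positivity)).trans ?_)
    refine div_le_div_of_nonneg_left (abs_nonneg C) (by positivity) ?_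
    push_cast
    nlinarith
  have e3' : ∀ w : ℂ, ‖w / (((N + 2 : ℕ)) : ℂ) - w / N‖ ≤ 2 * ‖w‖ / (N : ℝ) ^ 2 := by
    intro w
    have e4 : w / (((N + 2 : ℕ)) : ℂ) - w / N = w * (-2 / (N * (N + 2))) := by
      push_cast
      field_simp
      ring
    have e5 : ‖(N : ℂ) + 2‖ = (N : ℝ) + 2 := by
      have : ((N : ℂ) + 2) = ((N + 2 : ℕ) : ℂ) := by push_cast; ring
      rw [this, Complex.norm_natCast]
      push_cast
      ring
    have e6 : ‖(-2 : ℂ) / (N * (N + 2))‖ = 2 / (N * (N + 2)) := by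
      rw [norm_div, norm_mul, e5, norm_neg, Complex.norm_natCast]
      simp
    have e7 : (2 : ℝ) / (N * (N + 2)) ≤ 2 / (N : ℝ) ^ 2 :=
      div_le_div_of_nonneg_left (by norm_num) (by positivity) (by nlinarith)
    rw [e4, norm_mul, e6]
    calc ‖w‖ * (2 / (N * (N + 2))) ≤ ‖w‖ * (2 / (N : ℝ) ^ 2) :=
          mul_le_mul_of_nonneg_left e7 (norm_nonneg _)
      _ = _ := by ring
  have e3 := e3' (y 1 / y 0)
  have e8 : ‖3 / 2 * ((Real.log ((N + 2 : ℕ) : ℝ) : ℝ) : ℂ) - 3 / 2 * (Real.log N : ℝ) - 3 / N‖ ≤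
      6 / (N : ℝ) ^ 2 := by
    have f1 : (3 / 2 * ((Real.log ((N + 2 : ℕ) : ℝ) : ℝ) : ℂ) - 3 / 2 * (Real.log N : ℝ) - 3 / N) =
        3 / 2 * (Complex.log (1 + ((2 / N : ℝ) : ℂ)) - ((2 / N : ℝ) : ℂ)) := by
      have f2 : Complex.log (1 + ((2 / N : ℝ) : ℂ)) = ((Real.log (1 + 2 / N) : ℝ) : ℂ) := by
        rw [Complex.ofReal_log (by positivity)]
        push_cast
        rfl
      have f3 : Real.log (1 + 2 / (N : ℝ)) = Real.log ((N + 2 : ℕ) : ℝ) - Real.log N := by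
        rw [← Real.log_div (by positivity) (by positivity)]
        congr 1
        push_cast
        field_simp
      rw [f2, f3]
      push_cast
      field_simp
    have f4 : ‖((2 / N : ℝ) : ℂ)‖ = 2 / N := by
      rw [Complex.norm_real, Real.norm_of_nonneg (by positivity)]
    have f5 := log_one_add_bound (z := ((2 / N : ℝ) : ℂ)) (by
      rw [f4, div_le_div_iff₀ (by linarith) (by norm_num)]
      linarith)
    rw [f4] at f5
    rw [f1, norm_mul]
    have f6 : ‖(3 / 2 : ℂ)‖ = 3 / 2 := by simp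
    rw [f6]
    calc 3 / 2 * ‖Complex.log (1 + ((2 / N : ℝ) : ℂ)) - ((2 / N : ℝ) : ℂ)‖ ≤
          3 / 2 * (2 / (N : ℝ)) ^ 2 := mul_le_mul_of_nonneg_left f5 (by norm_num)
      _ = _ := by
          field_simp
          ring
  have e9 : (Real.pi : ℂ) * Complex.log (a (N + 2) / a N) +
      ((-2 * k N : ℤ) : ℂ) * (Real.pi ^ 2 * Complex.I) - (2 * Real.pi * v + 3 * Real.pi / N) =
      Real.pi * ((r (N + 2) - r N) + (y 1 / y 0 / (((N + 2 : ℕ)) : ℂ) - y 1 / y 0 / N) +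
        (3 / 2 * ((Real.log ((N + 2 : ℕ) : ℝ) : ℝ) : ℂ) - 3 / 2 * (Real.log N : ℝ) - 3 / N)) := by
    rw [g1, hr]
    push_cast
    ring
  rw [e9, norm_mul, Complex.norm_real, Real.norm_of_nonneg hpi.le, mul_div_assoc]
  refine mul_le_mul_of_nonneg_left ?_ hpi.le
  refine (norm_add_le _ _).trans ?_
  have e10 := norm_add_le (r (N + 2) - r N)
    (y 1 / y 0 / (((N + 2 : ℕ)) : ℂ) - y 1 / y 0 / N)
  have e11 := norm_sub_le (r (N + 2)) (r N)
  have e12 : (2 * |C| + 2 * ‖y 1 / y 0‖ + 6) / (N : ℝ) ^ 2 =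
      |C| / (N : ℝ) ^ 2 + |C| / (N : ℝ) ^ 2 + 2 * ‖y 1 / y 0‖ / (N : ℝ) ^ 2 + 6 / (N : ℝ) ^ 2 := by
    ring
  rw [e12]
  linarith

lemma log_lim (l : ℕ → ℂ) (V lam mu : ℂ) (B : ℝ)
    (h : ∀ᶠ n : ℕ in atTop, ‖l n - (n * V / (2 * Real.pi) + 3 / 2 * Real.log n + lam + mu / n)‖ ≤
      B / (n : ℝ) ^ 2) : Tendsto (fun n : ℕ => 2 * Real.pi / n * l n) atTop (𝓝 V) := by
  have hpi : (Real.pi : ℂ) ≠ 0 := by exact_mod_cast Real.pi_pos.ne'
  have t0 : Tendsto (fun n : ℕ => (1 : ℂ) / n) atTop (𝓝 0) := tendsto_const_div_atTop_nhds_zero_nat 1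
  have t1 : Tendsto (fun n : ℕ => B / (n : ℝ) ^ 2) atTop (𝓝 0) := by
    have := (tendsto_const_div_atTop_nhds_zero_nat B).mul
      (tendsto_const_div_atTop_nhds_zero_nat (1 : ℝ))
    rw [mul_zero] at this
    refine this.congr fun n => ?_
    ring
  have t2 : Tendsto (fun n : ℕ => l n - (n * V / (2 * Real.pi) + 3 / 2 * Real.log n + lam +
      mu / n)) atTop (𝓝 0) := squeeze_zero_norm' h t1
  have t3 : Tendsto (fun n : ℕ => Real.log n / (n : ℝ)) atTop (𝓝 0) :=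
    (Real.isLittleO_log_id_atTop.tendsto_div_nhds_zero).comp tendsto_natCast_atTop_atTop
  have t4 : Tendsto (fun n : ℕ => ((Real.log n / (n : ℝ) : ℝ) : ℂ)) atTop (𝓝 0) := by
    have := (Complex.continuous_ofReal.tendsto 0).comp t3
    rwa [Complex.ofReal_zero] at this
  have t5 := ((t0.mul t2).const_mul (2 * (Real.pi : ℂ))).add
    (((t4.const_mul (3 / 2 * (2 * (Real.pi : ℂ)))).add
      (t0.const_mul (2 * (Real.pi : ℂ) * lam))).add
        ((t0.mul t0).const_mul (2 * (Real.pi : ℂ) * mu)))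
  have t6 := t5.add_const V
  simp only [mul_zero, add_zero, zero_add] at t6
  refine t6.congr' ?_
  filter_upwards [eventually_ge_atTop 1] with n hn
  have hn0 : (n : ℂ) ≠ 0 := by
    have : n ≠ 0 := by omega
    exact_mod_cast this
  push_cast
  field_simp
  ring

end Pool.Agent.Q99.HX
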