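import Pool.Agent.Q99.HU.Stm1
import Pool.Agent.W719.AX.Gen

/-!
# Full asymptotic expansions for highly twisted links on planar shadows

Statements.  `UX` (`Pool/Agent/W719/AX/Gen.lean`) is a uniform asymptotic expansion in powers of
`1 / N`; `S_UXMUL`, `S_UXAN`, `S_UXBD` are proved in `Pool/Agent/W303/AX/UX1.lean`, `S_UXEXP` in
`Pool/Agent/W67/AX/UX2.lean`.
-/

set_option autoImplicit false

namespace Pool.Agent.Q99.HX

open Finset Filter Topology MeasureTheory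
open Pool.Agent.W719.AX (UX)
open Pool.Agent.Q99.FAL (bq hh S_T1 dn n1 n2 Pc Ty Val Pri Pos AS Sol Out c6 fV cor Net)
open Pool.Agent.Q99.KN (sn bc Wk zl ez Fk cz LC bb Gm St ct S_LC S_GAM S_PZ QZ kz th jN S_LAP S_GIM)
open Pool.Agent.Q99.HT
open Pool.Agent.Q99.HU

/-- full asymptotic expansion in powers of `1 / N` -/
def Xp (a : ℕ → ℂ) (y : ℕ → ℂ) : Prop :=
  ∀ K : ℕ, ∃ C : ℝ, ∀ᶠ N : ℕ in atTop, ‖a N - ∑ k ∈ range K, y k / (N : ℂ) ^ k‖ ≤ C / (N : ℝ) ^ K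

/-- uniform asymptotic expansion with analytic coefficients -/
def UA {E : Type} [NormedAddCommGroup E] [NormedSpace ℂ E] (H : ℕ → E → ℂ) (U : Set E) : Prop :=
  ∃ h : ℕ → E → ℂ, UX H h U ∧ ∀ k, AnalyticOnNhd ℂ (h k) U

/-- **closure properties of `UA`.**

Proof.  (1) `S_UXMUL` (the coefficients `cv` are finite sums of products).  (2) by definition.
(3) coefficients `f, 0, 0, …`; for `K = 0` the bound of `f`.  (4) the same coefficients.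
(5) induction with (1), (3). -/
def S_UA : Prop :=
  (∀ (E : Type) [NormedAddCommGroup E] [NormedSpace ℂ E] (H H' : ℕ → E → ℂ) (U : Set E),
    UA H U → UA H' U → UA (fun N p => H N p * H' N p) U) ∧
  (∀ (E F : Type) [NormedAddCommGroup E] [NormedSpace ℂ E] [NormedAddCommGroup F]
    [NormedSpace ℂ F] (H : ℕ → F → ℂ) (φ : E → F) (U : Set E) (V : Set F), UA H V →
    AnalyticOnNhd ℂ φ U → Set.MapsTo φ U V → UA (fun N p => H N (φ p)) U) ∧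
  (∀ (E : Type) [NormedAddCommGroup E] [NormedSpace ℂ E] (f : E → ℂ) (U : Set E) (B : ℝ),
    AnalyticOnNhd ℂ f U → (∀ p ∈ U, ‖f p‖ ≤ B) → UA (fun _ p => f p) U) ∧
  (∀ (E : Type) [NormedAddCommGroup E] [NormedSpace ℂ E] (H H' : ℕ → E → ℂ) (U : Set E),
    UA H U → (∀ K : ℕ, ∃ C : ℝ, ∀ᶠ N : ℕ in atTop, ∀ p ∈ U, ‖H' N p - H N p‖ ≤ C / (N : ℝ) ^ K) →
    UA H' U) ∧
  ∀ (E ι : Type) [NormedAddCommGroup E] [NormedSpace ℂ E] (s : Finset ι) (H : ι → ℕ → E → ℂ)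
    (U : Set E), (∀ i ∈ s, UA (H i) U) → UA (fun N p => ∏ i ∈ s, H i N p) U

/-- a part of the strip -/
def Sd (δ : ℝ) : Set ℂ := {x | δ < x.re ∧ x.re < 1 - δ ∧ |x.im| < 1}

/-- **the quantum dilogarithm to all orders.**

Proof.  `Gm N (x + s/N) * exp (- N LC x) = exp (L_N(x))` with
`L_N(x) = N (LC (x + s/N) - LC x) + I ∫_0^∞ φ_t(1/N) / (e^{2πt} + 1) dt`,
`φ_t(h) = bb (x + s h + i t h) - bb (x + s h - i t h)`.  For `|s| h ≤ δ/2` the points `x + s h ± i t h`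
have real parts in `[δ/2, 1 - δ/2]`, where all derivatives of `bb` of order `m ≥ 1` are bounded by
`B_m` (`ct` is bounded there, all imaginary parts, Cauchy's estimate; or: `ct' = π² - … ct²`, so all
derivatives of `ct` are polynomials in `ct`).  Taylor's formula in `h` on `[0, 1/N]`:
`|φ_t^{(M)}| ≤ 2 B_M (|s| + t)^M`, so the integral is `∑_{1 ≤ k < M} a_k bb^{(k)}(x) N^{-k} + O(N^{-M})`
with constants `a_k = (I / k!) ∫_0^∞ ((s + it)^k - (s - it)^k) / (e^{2πt} + 1) dt`.  The first part: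
Taylor's formula for `LC` (`LC' = bb`, bounded with all derivatives on the strip with `|Im| ≤ 1`):
`∑_{k ≥ 1} LC^{(k)}(x) s^k / k! N^{1-k}`.  So `L_N` has a uniform expansion; `S_UXEXP`; the
coefficients are analytic by `S_UXAN` (`Gm N` is differentiable, `S_GAM` (1)). -/
def S_GX : Prop := S_LC → S_GAM → ∀ δ : ℝ, 0 < δ → ∀ s : ℝ,
  UA (fun N x => Gm N (x + s / N) * Complex.exp (-(N * LC x))) (Sd δ)

/-- **Laplace's method to all orders.**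

Proof.  Let `n = card ι`.  (a) One function: `H N = h` analytic (`h = h_k`; it suffices to have
it bounded on a smaller ball).  `Q(z)` the quadratic part of `q`; on a smaller ball
`|q(z) - Q(z)| ≤ C1 ‖z‖³`, and `Re Q(x) ≤ - κ ∑ x_i²` for real `x` (limit of `q(tx)/t²`).  Choose `η0` with
`C1 η0 ‖x‖² ≤ (κ/2) ∑ x_i²` for all real `x`.  For real `x` and complex `ε`, `|ε| ‖x‖ ≤ η0`, let
`g_x(ε) = exp (q(εx)/ε²) h(εx)` (analytic in `ε`, with `g_x(0) = exp (Q x) h 0`; `q(εx)/ε² - Q(x)` is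
bounded by `C1 |ε| ‖x‖³ ≤ (κ/2) ∑ x_i²`), so `|g_x(ε)| ≤ B e^{-(κ/2) ∑ x_i²}`.  Let `c_j(x)` be its
Taylor coefficients at `ε = 0` (continuous in `x`: integral over the circle with the radius
`η0 / (2 (1 + ‖x‖))`); Cauchy: `|c_j(x)| ≤ B e^{-(κ/2) ∑ x_i²} (2 (1 + ‖x‖) / η0)^j`, and for all
`0 < ε` and `‖x‖ ≤ η/ε`, `|g_x(ε) - ∑_{j<M} c_j(x) ε^j| ≤ C_M e^{-(κ/2) ∑ x_i²} (1 + ‖x‖)^M ε^M` (if
`ε (1 + ‖x‖) ≤ η0/4` by Cauchy's estimate for the remainder, otherwise because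
`(4 ε (1 + ‖x‖)/η0)^M ≥ 1`); for `‖x‖ > η/ε` the sum alone is bounded in the same way.  With
`ε = 1/√N`, `√N^n ∫_{|x_i| ≤ η} e^{N q} h = ∫_{|x_i| ≤ η √N} g_x(1/√N) dx` has the expansion
`∑_j N^{-j/2} ∫ c_j`, and `c_j(-x) = (-1)^j c_j(x)` (`g_{-x}(-ε) = g_x(ε)`), so the odd ones vanish.
(b) `H N = ∑_{k<K} h_k / N^k + O(N^{-K})` uniformly: apply (a) to each `h_k`; the error is at most
`√N^n C N^{-K} ∫ e^{-κ N ∑ x_i²} ≤ C' N^{-K}`.  The coefficients are `y_m = ∑_{k+j=m} y^{(k)}_j`. -/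
def S_FLAP : Prop := ∀ (ι : Type) [Fintype ι] (R κ : ℝ), 0 < R → 0 < κ →
  ∀ (q : (ι → ℂ) → ℂ) (H : ℕ → (ι → ℂ) → ℂ), AnalyticOnNhd ℂ q (Metric.ball 0 R) →
  q 0 = 0 → fderiv ℂ q 0 = 0 →
  (∀ x : ι → ℝ, (∀ i, |x i| < R) → (q fun i => x i).re ≤ -κ * ∑ i, x i ^ 2) →
  (∀ᶠ N : ℕ in atTop, ContinuousOn (H N) (Metric.ball 0 R)) → UA H (Metric.ball 0 R) →
  ∃ η0 : ℝ, 0 < η0 ∧ η0 < R ∧ ∀ η : ℝ, 0 < η → η ≤ η0 → ∃ y : ℕ → ℂ,
    Xp (fun N => ((√N : ℝ) : ℂ) ^ Fintype.card ι * ∫ x in {x : ι → ℝ | ∀ i, |x i| ≤ η},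
      Complex.exp (N * q fun i => x i) * H N fun i => x i) y

/-- the normalised product of the brackets of a region -/
noncomputable def Am (N : ℕ) (α : Fin 6 → ℝ) (q0 : Fin 3 → ℤ) (v : Fin 4 → ℂ) (ζ : ℂ) : ℂ :=
  ((√N : ℝ) : ℂ) ^ na α * PB N α ![v 0 - q0 0 / N, v 1 - q0 1 / N, v 2 - q0 2 / N, v 3] ζ *
    Complex.exp (-(N * PE α v ζ))

/-- **the amplitude of a region to all orders.**

Proof.  For a bracket with centre `≠ 0`, `ν = nz ζ i`, `ξ = lf v i`; the shift of `v` changes `ξ` into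
`ξ - s/N`, `s = q0 0, 0, q0 0, q0 2, q0 1, q0 2 + q0 1` for `i = 0, …, 5`.  As
`Gm N x * Gm N (1 - x) = 1`, `LC (1 - x) = - LC x`:
`√N TB N ν (ξ - s/N) exp (- N LT ν ξ) = G_0(ν) G_{-s}(1 - ν + ξ) G_{s - 1/2}(1 - ξ)`, where
`G_s(x) = Gm N (x + s/N) exp (- N LC x)`.  On the set the arguments are in `Sd r` (`Blk.sml`:
`|lf v i - ctr α i| ≤ 3r/2`, `lf (vC α) i = ctr α i` by `Fr`; `r ≤ 1/64`).  `S_GX` and `S_UA` (affine
maps are analytic). -/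
def S_PX : Prop := S_LC → S_GAM → S_GX → S_UA → ∀ (α : Fin 6 → ℝ) (r κ K C0 : ℝ), Fr α →
  Blk α r κ K C0 → ∀ q0 : Fin 3 → ℤ,
  UA (fun N (p : (Fin 4 → ℂ) × ℂ) => Am N α q0 p.1 p.2)
    (Metric.ball (vC α) (r / 2) ×ˢ Metric.ball 0 (r / 2))

/-- **the integral to all orders** (the sequence is the one of `S_LPNb`).

Proof.  As `Pool/Agent/Q99/HU/Q239/LPN.lean` (with the parts `LPNA` - `LPND`).  After the translation by
the real parts of the critical point the normalised integrand at `u` (real) is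
`e^{N (Ph (crit + u) - Ph (crit))} H_N(u)`, where `H_N` is up to constants the product over the regions
of `sin (π ζ_s)`, `(1 - e^{πi(N ζ_s - N + 1)})^{-2}` and `Am N (α s) (q0 s) (v_s) ζ_s` at
`v_s = X.v T J s`, which are functions of `crit + u`, also for complex `u`; for `|u_i| < R`, `R` small,
`Im ζ_s ≥ y/2 > 0`, so the second factor is exponentially close to `1`.  `UA` for `H_N` on the ball
by `S_PX`, `S_UA`.  `q(u) = Ph (crit + u) - Ph (crit)` is analytic (`PE` is a sum of `LC` of affine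
functions), its derivative at `0` vanishes (`Cr`, `Blk.der`), and `S_MXNb` gives the bound of `Re q`.
`S_FLAP` for a small box; the integral over the rest of the box is exponentially small (the bound of
the integrand in `LPN.lean`: `B e^{-κ' N ∑ u_i²}`). -/
def S_LPX : Prop := S_LC → S_GAM → S_FLAP → S_GX → S_UA → S_PX → S_MXNb → S_BXNb →
  ∀ (c d : ℕ) (X : Nw c d), X.Okb →
  ∀ r κ K C0 : ℝ, (∀ s, Blk (X.α s) r κ K C0) → ∃ δ0 : ℝ, 0 < δ0 ∧ ∀ δ : ℝ, 0 < δ → δ ≤ δ0 →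
  ∃ ρ : ℝ, 0 < ρ ∧ ∀ (w : Fin c → ℤ) (T : Fin d → ℂ) (J ζ : Fin c → ℂ), X.Cr w T J ζ →
  X.Nr ρ T J ζ → (∀ s, 0 < (ζ s).im) → ∃ y : ℕ → ℂ,
  Xp (fun N : ℕ => ((√N : ℝ) : ℂ) ^ X.nA / ((√N : ℝ) : ℂ) ^ Fintype.card X.Ix *
    (-1) ^ (c * (N - 1)) * Complex.exp (-(N * X.Ph w T J ζ)) * (N ^ d *
    ∫ x in X.bx δ N, ∏ s, FZ r N (X.α s) (w s) (ζ s).im (J s).im
      (X.xN N (fun j => x j + (T j).im * Complex.I) s))) y

/-- the conclusion of `S_ASX` -/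
def AXc : Prop := ∀ (c d : ℕ) (X : Nw c d), X.Okb → X.Far →
  (∀ s, ∃ κ C0 ρ : ℝ, 0 < κ ∧ 0 < ρ ∧ Ltn (X.α s) κ C0 ρ) → ∃ ρ0 : ℝ, 0 < ρ0 ∧ ∀ ρ : ℝ, 0 < ρ →
  ρ ≤ ρ0 → ∃ W0 C : ℝ, 1 ≤ W0 ∧ ∀ (w : Fin c → ℤ) (Wm : ℝ), W0 ≤ Wm → (∀ s, Wm ≤ |(w s : ℝ)|) →
  ∃ (T : Fin d → ℂ) (J ζ : Fin c → ℂ), X.Cr w T J ζ ∧ X.Nr ρ T J ζ ∧ (∀ s, 0 < (ζ s).im) ∧
    |(X.Ph w T J ζ).re - ∑ s, v0 (X.α s)| ≤ C / Wm ^ 2 ∧
    (∀ (T' : Fin d → ℂ) (J' ζ' : Fin c → ℂ), X.Cr w T' J' ζ' → X.Nr ρ T' J' ζ' →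
      T' = T ∧ J' = J ∧ ζ' = ζ) ∧
    ∃ y : ℕ → ℂ, y 0 ≠ 0 ∧ Xp (fun N : ℕ => ((√N : ℝ) : ℂ) ^ X.nA /
      ((√N : ℝ) : ℂ) ^ Fintype.card X.Ix * (-1) ^ (c * (N - 1)) *
      Complex.exp (-(N * X.Ph w T J ζ)) * X.Z N w) y

/-- **the state sum to all orders.**

Proof.  As `task_ASNb` (`Pool/Agent/Q210/HU/ASNb.lean`): take the smaller `δ0`, `ρ` of `S_LPNb` and
`S_LPX`; the error of `S_NWb` is exponentially small compared to `exp (N Ph)`, so it does not change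
the expansion.  `y 0 ≠ 0` because `y 0` is the limit (`K = 1`) and the limit in `S_LPNb` is not `0`. -/
def S_ASX : Prop := S_LC → S_GAM → S_BMO →
  (∀ α : Fin 6 → ℝ, Fr α → ∃ r κ K C0 : ℝ, Blk α r κ K C0) → S_LMO → S_ZZ → S_NW0b → S_GPX →
  S_MPX → BNcb → S_NWb → S_SDNb → S_LAP → S_GIM → S_MXNb → S_BXNb → S_LPNb → S_LTd →
  S_FLAP → S_GX → S_UA → S_PX → S_LPX → AXc

end Pool.Agent.Q99.HX
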